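import Mathlib
import Pool.Agent.Lib_helper42.Defs
import Pool.Agent.Lib_helper42.Final

set_option autoImplicit false
open MeasureTheory Set Filter Topology

namespace Pool.Agent.Results.MP_0cd561_an.LowerBoundFails

open Pool.Agent.Lib_helper42

/-- Some `h` in the group `G` (it is even a diffeomorphism of class `C^1`) fails the lower bound:
there are `f_k` in `BMOA` of norm one such that the analytic projections `u_k` of `f_k ∘ h` tend
to zero in `BMO`. -/
theorem result : ∃ h : ℝ → ℝ, MemG h ∧ ContDiff ℝ 1 h ∧ ∃ f u : ℕ → ℝ → ℂ,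
    (∀ k, MemBMOA (f k) ∧ bmoNorm (f k) = 1 ∧
      IsProj (fun x => f k (h x)) (u k) ∧ MemBMO (u k)) ∧
    Tendsto (fun k => bmoNorm (u k)) atTop (𝓝 0) := main

end Pool.Agent.Results.MP_0cd561_an.LowerBoundFails
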